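import Pool.Agent.Helper86.AN.Stmts

set_option autoImplicit false

namespace Pool.Agent.Helper47.AN

open Pool.Agent.Helper86.AN Finset

theorem st_ADJ (hADJ1 : ST_ADJ1) (hL2 : ST_L2) (hCOL : ST_COL) : ST_ADJ := by
  intro V _ _ s A m w u n e c₀ i a b c d hK hZ hE hab hbc hcd hda hS1 hS2
  by_contra hG
  have hper : ∀ k : ℤ, e (k + n) = e k := fun k =>
    (hZ.per (k + n) k).2 ⟨1, by ring⟩
  rcases hADJ1 V s A m w u n e c₀ i a b c d hK hZ hE hab hbc hcd hda hS1 hS2 with h | ⟨t, ht1, ht2, ht⟩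
  · exact hG h
  have hS1' : Sp s u (!(!i)) (e (a + n)) (e (b + n)) := by
    rw [Bool.not_not, hper a, hper b]; exact hS1
  rcases hADJ1 V s A m w u n e c₀ (!i) c d (a + n) (b + n) hK hZ hE hcd hda (by linarith)
    (by linarith) hS2 hS1' with h | ⟨t', ht1', ht2', ht'⟩
  · exact hG h
  have hac : a < c := by linarith
  have hcn : c < a + n := by linarith
  obtain ⟨-, hc, -⟩ := hCOL V s A m w u n e c₀ i a c hK hZ hE hac hcn
  refine hG (hL2 V s A m w u n e c₀ i a c b d hK hZ hE hac hcn hS1 hS2 ?_)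
  rw [ht, ht']
  have h1 : ¬ (col w u e i c₀ a c (e t) = true) := by
    rw [hc t (by linarith) (by linarith)]; linarith
  have h2 : col w u e i c₀ a c (e t') = true := by
    rw [hc t' (by linarith) (by linarith)]; linarith
  intro h3
  rw [h3] at h1
  exact h1 h2

end Pool.Agent.Helper47.AN
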